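import Pool.Agent.TBP.StmtsA

/-!
# TBP, row GSM: the coefficients of `τ ^ ρ`
-/

set_option autoImplicit false

namespace Pool.Agent.TBP.H49

open Finset
open Pool.Agent.Common_Sieve Pool.Agent.Helper46_MNO Pool.Agent.TBP

theorem rho_pos : 0 < rho := by
  unfold rho
  exact div_pos one_pos (Real.log_pos (by norm_num))

theorem gg_nonneg (m : ℕ) : 0 ≤ GG m := by
  unfold GG
  apply Finset.prod_nonneg
  intro p _
  rw [sub_nonneg]
  exact Real.rpow_le_rpow (Nat.cast_nonneg _) (by linarith) rho_pos.le

theorem gg_one : GG 1 = 1 := by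
  unfold GG
  simp

theorem gg_mul (a b : ℕ) (h : Nat.Coprime a b) (ha : 0 < a) (hb : 0 < b) :
    GG (a * b) = GG a * GG b := by
  have hfa : ∀ p ∈ a.primeFactors, (a * b).factorization p = a.factorization p := by
    intro p hp
    have h1 : b.factorization p = 0 := by
      apply Nat.factorization_eq_zero_of_not_dvd
      intro h2
      exact (Nat.prime_of_mem_primeFactors hp).not_dvd_one
        (h ▸ Nat.dvd_gcd (Nat.dvd_of_mem_primeFactors hp) h2)
    rw [Nat.factorization_mul ha.ne' hb.ne', Finsupp.add_apply, h1, add_zero]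
  have hfb : ∀ p ∈ b.primeFactors, (a * b).factorization p = b.factorization p := by
    intro p hp
    have h1 : a.factorization p = 0 := by
      apply Nat.factorization_eq_zero_of_not_dvd
      intro h2
      exact (Nat.prime_of_mem_primeFactors hp).not_dvd_one
        (h ▸ Nat.dvd_gcd h2 (Nat.dvd_of_mem_primeFactors hp))
    rw [Nat.factorization_mul ha.ne' hb.ne', Finsupp.add_apply, h1, zero_add]
  unfold GG
  rw [Nat.primeFactors_mul ha.ne' hb.ne', Finset.prod_union h.disjoint_primeFactors]
  congr 1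
  · apply Finset.prod_congr rfl
    intro p hp
    rw [hfa p hp]
  · apply Finset.prod_congr rfl
    intro p hp
    rw [hfb p hp]

theorem gg_prime_pow {p : ℕ} (hp : p.Prime) (i : ℕ) :
    GG (p ^ i) = ((i : ℝ) + 1) ^ rho - (i : ℝ) ^ rho := by
  rcases Nat.eq_zero_or_pos i with rfl | hi
  · rw [pow_zero, gg_one]
    simp [Real.zero_rpow rho_pos.ne']
  · unfold GG
    rw [Nat.primeFactors_prime_pow hi.ne' hp, Finset.prod_singleton, hp.factorization_pow,
      Finsupp.single_eq_same]

theorem gsm : GsmStmt := by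
  refine ⟨gg_nonneg, gg_one, gg_mul, ?_⟩
  let G : ArithmeticFunction ℝ := ⟨fun m => if m = 0 then 0 else GG m, by simp⟩
  let F : ArithmeticFunction ℝ := ⟨tk rho, tk_zero rho_pos⟩
  have hG0 : ∀ m, m ≠ 0 → G m = GG m := by
    intro m hm
    change (if m = 0 then 0 else GG m) = GG m
    rw [if_neg hm]
  have hGm : G.IsMultiplicative := by
    refine ArithmeticFunction.IsMultiplicative.iff_ne_zero.2 ⟨?_, ?_⟩
    · rw [hG0 1 one_ne_zero, gg_one]
    · intro m n hm hn hmn
      rw [hG0 _ (mul_ne_zero hm hn), hG0 m hm, hG0 n hn,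
        gg_mul m n hmn (Nat.pos_of_ne_zero hm) (Nat.pos_of_ne_zero hn)]
  have hFm : F.IsMultiplicative := by
    refine ArithmeticFunction.IsMultiplicative.iff_ne_zero.2 ⟨?_, ?_⟩
    · exact tk_one rho
    · intro m n _ _ hmn
      exact tk_coprime rho hmn
  have hprod : (G * (ArithmeticFunction.zeta : ArithmeticFunction ℝ)).IsMultiplicative :=
    hGm.mul (ArithmeticFunction.isMultiplicative_zeta.natCast)
  have hEq : F = G * (ArithmeticFunction.zeta : ArithmeticFunction ℝ) := by
    rw [ArithmeticFunction.IsMultiplicative.eq_iff_eq_on_prime_powers F hFm _ hprod]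
    intro p k hp
    rw [ArithmeticFunction.coe_mul_zeta_apply, Nat.sum_divisors_prime_pow hp]
    have h1 : ∀ i ∈ range (k + 1), G (p ^ i) = ((i : ℝ) + 1) ^ rho - (i : ℝ) ^ rho := by
      intro i _
      rw [hG0 _ (pow_ne_zero _ hp.ne_zero), gg_prime_pow hp]
    rw [Finset.sum_congr rfl h1]
    have h2 : ∀ n : ℕ, ∑ i ∈ range n, (((i : ℝ) + 1) ^ rho - (i : ℝ) ^ rho) = (n : ℝ) ^ rho := by
      intro n
      induction n with
      | zero => simp [Real.zero_rpow rho_pos.ne']
      | succ n ih =>
        rw [Finset.sum_range_succ, ih]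
        push_cast
        ring
    rw [h2]
    change tk rho (p ^ k) = _
    rw [tk_prime_pow rho hp]
    push_cast
    rfl
  intro m hm
  have h3 : F m = (G * (ArithmeticFunction.zeta : ArithmeticFunction ℝ)) m := by rw [← hEq]
  rw [ArithmeticFunction.coe_mul_zeta_apply] at h3
  have h4 : F m = tk rho m := rfl
  rw [← h4, h3]
  apply Finset.sum_congr rfl
  intro d hd
  rw [hG0 d (Nat.pos_of_mem_divisors hd).ne']

end Pool.Agent.TBP.H49
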